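import Mathlib.LinearAlgebra.Matrix.ToLin
import Mathlib.LinearAlgebra.Matrix.NonsingularInverse
import Mathlib.LinearAlgebra.Span.Basic
import Mathlib.LinearAlgebra.Dimension.Finrank
import Mathlib.LinearAlgebra.Dimension.Constructions
import Mathlib.Tactic.FinCases
import Mathlib.Tactic.NormNum
import Mathlib.Tactic.LinearCombination
import Mathlib.Tactic.FieldSimp

/-!
# A Leonard triple without q-commutator relations

Negative answer to Q1 of MP_4722b0_al.
-/

set_option autoImplicit false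

open Matrix

namespace Pool.Agent.Results.MP_4722b0_al.RacahTriple

variable {K : Type*} [Field K] {V : Type*} [AddCommGroup V] [Module K V]

/-- A diagonal matrix. -/
def IsDiagonal {n : ℕ} (M : Matrix (Fin n) (Fin n) K) : Prop := ∀ i j, i ≠ j → M i j = 0

/-- An irreducible tridiagonal matrix. -/
def IsIrredTridiagonal {n : ℕ} (M : Matrix (Fin n) (Fin n) K) : Prop :=
  (∀ i j : Fin n, (i.val + 1 < j.val ∨ j.val + 1 < i.val) → M i j = 0) ∧
    ∀ i j : Fin n, (i.val + 1 = j.val ∨ j.val + 1 = i.val) → M i j ≠ 0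

/-- There is a basis in which `X` is diagonal and `Y`, `Z` are irreducible tridiagonal. -/
def HasGoodBasis (X Y Z : V →ₗ[K] V) : Prop :=
  ∃ (n : ℕ) (b : Module.Basis (Fin n) K V), IsDiagonal (LinearMap.toMatrix b b X) ∧
    IsIrredTridiagonal (LinearMap.toMatrix b b Y) ∧ IsIrredTridiagonal (LinearMap.toMatrix b b Z)

/-- A Leonard triple on the space `V` with `0 < dim V < ∞`. -/
def IsLeonardTriple (A B C : V →ₗ[K] V) : Prop :=
  Module.Finite K V ∧ 0 < Module.finrank K V ∧ HasGoodBasis A B C ∧ HasGoodBasis B A C ∧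
    HasGoodBasis C A B

theorem good_of_conj {n : ℕ} (P Q X Y Z D E F : Matrix (Fin n) (Fin n) K) (hPQ : P * Q = 1)
    (hQP : Q * P = 1) (hX : Q * X * P = D) (hY : Q * Y * P = E) (hZ : Q * Z * P = F)
    (hD : IsDiagonal D) (hE : IsIrredTridiagonal E) (hF : IsIrredTridiagonal F) :
    HasGoodBasis (Matrix.toLin' X) (Matrix.toLin' Y) (Matrix.toLin' Z) := by
  let b : Module.Basis (Fin n) K (Fin n → K) :=
    (Pi.basisFun K (Fin n)).map (Matrix.toLin'OfInv hQP hPQ)
  have h : ∀ M : Matrix (Fin n) (Fin n) K, LinearMap.toMatrix b b (Matrix.toLin' M) = Q * M * P := by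
    intro M
    ext i j
    rw [LinearMap.toMatrix_apply]
    simp only [b, Module.Basis.map_apply, Module.Basis.map_repr, LinearEquiv.trans_apply,
      Matrix.toLin'OfInv]
    simp only [Pi.basisFun_apply, Pi.basisFun_repr, Matrix.toLin'_apply, LinearEquiv.coe_mk]
    change (Q *ᵥ (M *ᵥ (P *ᵥ Pi.single j 1))) i = _
    rw [Matrix.mulVec_mulVec, Matrix.mulVec_mulVec, Matrix.mulVec_single_one]
    rfl
  exact ⟨n, b, by rw [h, hX]; exact hD, by rw [h, hY]; exact hE, by rw [h, hZ]; exact hF⟩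

variable (K)

def MA : Matrix (Fin 3) (Fin 3) K := !![0, 0, 0; 0, 2, 0; 0, 0, 6]

def MB : Matrix (Fin 3) (Fin 3) K := !![4, 16, 0; 1/3, 3, 5; 0, 1/3, 1]

def MC : Matrix (Fin 3) (Fin 3) K := !![4, -16, 0; -1/3, 3, -5; 0, -1/3, 1]

def PB : Matrix (Fin 3) (Fin 3) K := !![12, -24, 120; -3, 3, 15; 1, 1, 1]

def QB : Matrix (Fin 3) (Fin 3) K := !![1/108, -1/9, 5/9; -1/72, 1/12, 5/12; 1/216, 1/36, 1/36]

def PC : Matrix (Fin 3) (Fin 3) K := !![12, -24, 120; 3, -3, -15; 1, 1, 1]

def QC : Matrix (Fin 3) (Fin 3) K := !![1/108, 1/9, 5/9; -1/72, -1/12, 5/12; 1/216, -1/36, 1/36]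

def TB : Matrix (Fin 3) (Fin 3) K := !![4, 8/3, 0; 2, 3, 5; 0, 1/3, 1]

def TC : Matrix (Fin 3) (Fin 3) K := !![4, -8/3, 0; -2, 3, -5; 0, -1/3, 1]

variable [CharZero K]

omit [CharZero K] in
theorem diag_MA : IsDiagonal (MA K) := by
  intro i j hij
  fin_cases i <;> fin_cases j <;> simp_all [MA]

theorem tri_MB : IsIrredTridiagonal (MB K) := by
  refine ⟨fun i j h => ?_, fun i j h => ?_⟩ <;> fin_cases i <;> fin_cases j <;>
    simp_all [MB]

theorem tri_MC : IsIrredTridiagonal (MC K) := by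
  refine ⟨fun i j h => ?_, fun i j h => ?_⟩ <;> fin_cases i <;> fin_cases j <;>
    simp_all [MC]

theorem tri_TB : IsIrredTridiagonal (TB K) := by
  refine ⟨fun i j h => ?_, fun i j h => ?_⟩ <;> fin_cases i <;> fin_cases j <;>
    simp_all [TB]

theorem tri_TC : IsIrredTridiagonal (TC K) := by
  refine ⟨fun i j h => ?_, fun i j h => ?_⟩ <;> fin_cases i <;> fin_cases j <;>
    simp_all [TC]

theorem leonard : IsLeonardTriple (Matrix.toLin' (MA K)) (Matrix.toLin' (MB K))
    (Matrix.toLin' (MC K)) := by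
  refine ⟨inferInstance, by simp, ?_, ?_, ?_⟩
  · exact good_of_conj 1 1 _ _ _ (MA K) (MB K) (MC K) (by simp) (by simp) (by simp) (by simp)
      (by simp) (diag_MA K) (tri_MB K) (tri_MC K)
  · refine good_of_conj (PB K) (QB K) _ _ _ (MA K) (TB K) (TC K) ?_ ?_ ?_ ?_ ?_ (diag_MA K)
      (tri_TB K) (tri_TC K)
    all_goals
      simp only [PB, QB, MA, MB, MC, TB, TC, Matrix.mul_fin_three, Matrix.one_fin_three]
      norm_num
  · refine good_of_conj (PC K) (QC K) _ _ _ (MA K) (TB K) (TC K) ?_ ?_ ?_ ?_ ?_ (diag_MA K)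
      (tri_TB K) (tri_TC K)
    all_goals
      simp only [PC, QC, MA, MB, MC, TB, TC, Matrix.mul_fin_three, Matrix.one_fin_three]
      norm_num

/-- **Q1 is false.**  Over every field of characteristic zero there is a Leonard triple `A, B, C` on a
three dimensional space such that for no nonzero scalar `q` the element `A B - q B A` belongs to the
span of `1, A, B, C`. -/
theorem result (K : Type*) [Field K] [CharZero K] :
    ∃ A B C : (Fin 3 → K) →ₗ[K] (Fin 3 → K), IsLeonardTriple A B C ∧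
      ∀ q : K, q ≠ 0 → A * B - q • (B * A) ∉ Submodule.span K {1, A, B, C} := by
  refine ⟨_, _, _, leonard K, fun q hq hmem => ?_⟩
  -- every element of the span is `α + β A + γ B`
  have key : ∀ T ∈ Submodule.span K ({1, Matrix.toLin' (MA K), Matrix.toLin' (MB K),
      Matrix.toLin' (MC K)} : Set ((Fin 3 → K) →ₗ[K] (Fin 3 → K))),
      (LinearMap.toMatrix' T) 1 2 = 15 * (LinearMap.toMatrix' T) 1 0 := by
    intro T hT
    induction hT using Submodule.span_induction with
    | mem T hT =>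
      rcases hT with rfl | rfl | rfl | rfl
      · simp
      · simp [MA]
      · simp [MB]
        norm_num
      · simp [MC]
        norm_num
    | zero => simp
    | add T T' _ _ h h' =>
      rw [map_add, Matrix.add_apply, Matrix.add_apply, h, h', mul_add]
    | smul c T _ h =>
      rw [map_smul, Matrix.smul_apply, Matrix.smul_apply, h, smul_eq_mul, smul_eq_mul]
      ring
  have h1 := key _ hmem
  rw [map_sub, map_smul, LinearMap.toMatrix'_mul, LinearMap.toMatrix'_mul,
    LinearMap.toMatrix'_toLin', LinearMap.toMatrix'_toLin'] at h1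
  simp [MA, MB] at h1
  apply hq
  have h2 : (30 : K) * q = 0 := by
    linear_combination -h1
  rcases mul_eq_zero.1 h2 with h | h
  · norm_num at h
  · exact h

end Pool.Agent.Results.MP_4722b0_al.RacahTriple
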